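import Mathlib

set_option autoImplicit false

/-!
# The numbers `(a ^ n - b ^ n) / (a - b)` (helper233)
-/

open Filter
open scoped Topology

namespace Pool.Agent.N233.LP

/-- `(a ^ n - b ^ n) / (a - b)` -/
def M (a b : ℤ) (n : ℕ) : ℤ := (a ^ n - b ^ n) / (a - b)

lemma M_sum {a b : ℤ} (h : b < a) (n : ℕ) : M a b n = ∑ i ∈ Finset.range n, a ^ i * b ^ (n - 1 - i) := by
  have h1 : (∑ i ∈ Finset.range n, a ^ i * b ^ (n - 1 - i)) * (a - b) = a ^ n - b ^ n :=
    (Commute.all a b).geom_sum₂_mul n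
  have h2 : a - b ≠ 0 := by omega
  unfold M
  rw [← h1]
  exact Int.mul_ediv_cancel _ h2

lemma M_mul {a b : ℤ} (h : b < a) (n : ℕ) : M a b n * (a - b) = a ^ n - b ^ n := by
  rw [M_sum h]
  exact (Commute.all a b).geom_sum₂_mul n

/-- the prime factors of `M a b p` are at least `p` -/
lemma M_rough {a b : ℤ} (hab : IsCoprime a b) (h : b < a) {p q : ℕ} (hp : p.Prime) (hq : q.Prime) (hqp : q < p) :
    ¬ (q : ℤ) ∣ M a b p := by
  intro hd
  have : Fact q.Prime := ⟨hq⟩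
  set x : ZMod q := (a : ZMod q) with hx
  set y : ZMod q := (b : ZMod q) with hy
  have h1 : ∑ i ∈ Finset.range p, x ^ i * y ^ (p - 1 - i) = 0 := by
    have h2 : ((M a b p : ℤ) : ZMod q) = 0 := (ZMod.intCast_zmod_eq_zero_iff_dvd _ _).2 hd
    rw [M_sum h] at h2
    push_cast at h2
    exact h2
  have h2 : x ^ p = y ^ p := by
    have h3 := (Commute.all x y).geom_sum₂_mul p
    rw [h1, zero_mul] at h3
    exact (sub_eq_zero.1 h3.symm)
  have hy0 : y ≠ 0 := by
    intro h3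
    have h4 : x = 0 := by
      rw [h3, zero_pow hp.ne_zero] at h2
      exact pow_eq_zero_iff hp.ne_zero |>.1 h2
    obtain ⟨u, v, huv⟩ := hab
    have h5 : ((u * a + v * b : ℤ) : ZMod q) = 1 := by rw [huv]; simp
    push_cast at h5
    rw [← hx, ← hy, h3, h4] at h5
    simp at h5
  have hx0 : x ≠ 0 := by
    intro h3
    rw [h3, zero_pow hp.ne_zero] at h2
    exact hy0 ((pow_eq_zero_iff hp.ne_zero).1 h2.symm)
  have h3 : (x / y) ^ p = 1 := by
    rw [div_pow, h2, div_self (pow_ne_zero _ hy0)]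
  have h4 : (x / y) ^ (q - 1) = 1 := ZMod.pow_card_sub_one_eq_one (div_ne_zero hx0 hy0)
  have h5 : Nat.Coprime p (q - 1) := by
    rw [Nat.Prime.coprime_iff_not_dvd hp]
    intro h6
    have := Nat.le_of_dvd (by have := hq.two_le; omega) h6
    omega
  have h6 : orderOf (x / y) ∣ Nat.gcd p (q - 1) := Nat.dvd_gcd (orderOf_dvd_of_pow_eq_one h3) (orderOf_dvd_of_pow_eq_one h4)
  rw [h5, Nat.dvd_one, orderOf_eq_one_iff, div_eq_one_iff_eq hy0] at h6
  rw [h6] at h1
  have h7 : ∀ i ∈ Finset.range p, y ^ i * y ^ (p - 1 - i) = y ^ (p - 1) := by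
    intro i hi
    have := Finset.mem_range.1 hi
    rw [← pow_add]
    congr 1
    omega
  rw [Finset.sum_congr rfl h7, Finset.sum_const, Finset.card_range, nsmul_eq_mul] at h1
  have h8 : ((p : ℕ) : ZMod q) = 0 := by
    rcases mul_eq_zero.1 h1 with h9 | h9
    · exact h9
    · exact absurd h9 (pow_ne_zero _ hy0)
  have h9 := (ZMod.natCast_eq_zero_iff _ _).1 h8
  have := (Nat.prime_dvd_prime_iff_eq hq hp).1 h9
  omega

/-- size -/
lemma M_bd {a b : ℤ} (ha : 1 < a) (h1 : -a < b) (h2 : b < a) {n : ℕ} (hn : 1 ≤ n) :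
    (a : ℝ) ^ n / (2 * a ^ 2) ≤ M a b n ∧ (M a b n : ℝ) ≤ 2 * (a : ℝ) ^ n := by
  have ha' : (1 : ℝ) < a := by exact_mod_cast ha
  have h1' : -(a : ℝ) + 1 ≤ b := by exact_mod_cast (show -a + 1 ≤ b by omega)
  have h2' : (b : ℝ) ≤ a - 1 := by exact_mod_cast (show b ≤ a - 1 by omega)
  have hM : (M a b n : ℝ) * (a - b) = (a : ℝ) ^ n - (b : ℝ) ^ n := by exact_mod_cast M_mul h2 n
  have hb : |(b : ℝ)| ≤ a - 1 := abs_le.2 ⟨by linarith, h2'⟩
  have hbn : |(b : ℝ) ^ n| ≤ (a - 1) * (a : ℝ) ^ (n - 1) := by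
    obtain ⟨m, rfl⟩ := Nat.exists_eq_add_of_le hn
    rw [abs_pow, show 1 + m - 1 = m by omega, pow_add, pow_one]
    have h3 : |(b : ℝ)| ^ m ≤ (a : ℝ) ^ m := pow_le_pow_left₀ (abs_nonneg _) (by linarith) m
    have h4 : (0 : ℝ) ≤ |(b : ℝ)| := abs_nonneg _
    have h5 : (0 : ℝ) ≤ |(b : ℝ)| ^ m := by positivity
    nlinarith [mul_le_mul hb h3 h5 (by linarith)]
  have han : (a : ℝ) ^ n = a * (a : ℝ) ^ (n - 1) := by
    obtain ⟨m, rfl⟩ := Nat.exists_eq_add_of_le hn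
    rw [show 1 + m - 1 = m by omega, pow_add, pow_one]
  have hbn' := abs_le.1 hbn
  have hp : 0 < (a : ℝ) ^ (n - 1) := by positivity
  have hlow : (a : ℝ) ^ (n - 1) ≤ M a b n * (a - b) := by
    rw [hM, han]
    nlinarith [hbn'.2]
  have hup : M a b n * (a - b) ≤ 2 * (a : ℝ) ^ n := by
    rw [hM, han]
    nlinarith [hbn'.1]
  have hd1 : (1 : ℝ) ≤ a - b := by linarith
  have hd2 : (a : ℝ) - b ≤ 2 * a := by linarith
  have hMpos : 0 ≤ (M a b n : ℝ) := by
    by_contra hc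
    push Not at hc
    nlinarith
  constructor
  · rw [div_le_iff₀ (by positivity), han]
    have h3 : (a : ℝ) ^ (n - 1) ≤ M a b n * (2 * a) := hlow.trans (mul_le_mul_of_nonneg_left hd2 hMpos)
    nlinarith [mul_le_mul_of_nonneg_left h3 (show (0 : ℝ) ≤ a by linarith)]
  · nlinarith

lemma M_pos {a b : ℤ} (ha : 1 < a) (h1 : -a < b) (h2 : b < a) {n : ℕ} (hn : 1 ≤ n) : 0 < M a b n := by
  have h3 := (M_bd ha h1 h2 hn).1
  have ha' : (1 : ℝ) < a := by exact_mod_cast ha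
  have h4 : (0 : ℝ) < (a : ℝ) ^ n / (2 * a ^ 2) := by positivity
  exact_mod_cast lt_of_lt_of_le h4 h3

lemma M_lt {a b : ℤ} (ha : 1 < a) (h1 : -a < b) (h2 : b < a) {n : ℕ} (hn : 2 ≤ n) : M a b n < M a b (n + 1) := by
  have e1 := M_mul h2 n
  have e2 := M_mul h2 (n + 1)
  have h3 : 0 < (M a b (n + 1) - M a b n) * (a - b) := by
    have e3 : (M a b (n + 1) - M a b n) * (a - b) = a ^ n * (a - 1) - b ^ n * (b - 1) := by
      rw [sub_mul, e1, e2]
      ring
    rw [e3]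
    have hb : |b| ≤ a - 1 := abs_le.2 ⟨by omega, by omega⟩
    have h4 : |b ^ n * (b - 1)| ≤ (a - 1) ^ n * a := by
      rw [abs_mul, abs_pow]
      have h5 : |b| ^ n ≤ (a - 1) ^ n := pow_le_pow_left₀ (abs_nonneg _) hb n
      have h6 : |b - 1| ≤ a := by
        have := abs_sub b 1
        rw [abs_one] at this
        omega
      exact mul_le_mul h5 h6 (abs_nonneg _) (pow_nonneg (by omega) n)
    have h7 : (a - 1) ^ n * a < a ^ n * (a - 1) := by
      obtain ⟨m, rfl⟩ := Nat.exists_eq_add_of_le hn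
      have h8 : (a - 1) ^ (1 + m) < a ^ (1 + m) := pow_lt_pow_left₀ (by omega) (by omega) (by omega)
      have e4 : (a - 1) ^ (2 + m) * a = (a - 1) ^ (1 + m) * (a * (a - 1)) := by ring
      have e5 : a ^ (2 + m) * (a - 1) = a ^ (1 + m) * (a * (a - 1)) := by ring
      rw [e4, e5]
      exact mul_lt_mul_of_pos_right h8 (by nlinarith)
    have := (abs_le.1 h4).2
    linarith
  have h4 : 0 < M a b (n + 1) - M a b n := by
    by_contra hc
    push Not at hc
    nlinarith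
  linarith

/-- as natural numbers -/
def Mn (a b : ℤ) (n : ℕ) : ℕ := (M a b n).toNat

lemma Mn_cast {a b : ℤ} (ha : 1 < a) (h1 : -a < b) (h2 : b < a) {n : ℕ} (hn : 1 ≤ n) :
    ((Mn a b n : ℕ) : ℤ) = M a b n := Int.toNat_of_nonneg (M_pos ha h1 h2 hn).le

lemma Mn_bd {a b : ℤ} (ha : 1 < a) (h1 : -a < b) (h2 : b < a) {n : ℕ} (hn : 1 ≤ n) :
    (a : ℝ) ^ n / (2 * a ^ 2) ≤ Mn a b n ∧ (Mn a b n : ℝ) ≤ 2 * (a : ℝ) ^ n := by
  have e : (Mn a b n : ℝ) = (M a b n : ℝ) := by exact_mod_cast Mn_cast ha h1 h2 hn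
  rw [e]
  exact M_bd ha h1 h2 hn

lemma Mn_lt {a b : ℤ} (ha : 1 < a) (h1 : -a < b) (h2 : b < a) {n : ℕ} (hn : 2 ≤ n) : Mn a b n < Mn a b (n + 1) := by
  have := M_lt ha h1 h2 hn
  rw [← Mn_cast ha h1 h2 (by omega), ← Mn_cast ha h1 h2 (by omega)] at this
  exact_mod_cast this

lemma Mn_lt' {a b : ℤ} (ha : 1 < a) (h1 : -a < b) (h2 : b < a) {n m : ℕ} (hn : 2 ≤ n) (hnm : n < m) :
    Mn a b n < Mn a b m := by
  obtain ⟨k, rfl⟩ := Nat.exists_eq_add_of_lt hnm
  clear hnm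
  induction k with
  | zero => exact Mn_lt ha h1 h2 hn
  | succ k ih => exact ih.trans (Mn_lt ha h1 h2 (by omega))

lemma Mn_rough {a b : ℤ} (ha : 1 < a) (h1 : -a < b) (h2 : b < a) (hab : IsCoprime a b) {p q : ℕ} (hp : p.Prime)
    (hq : q.Prime) (hqp : q < p) : ¬ q ∣ Mn a b p := by
  intro h
  refine M_rough hab h2 hp hq hqp ?_
  rw [← Mn_cast ha h1 h2 hp.one_le]
  exact_mod_cast h

lemma Mn_growth {a b : ℤ} (ha : 1 < a) (h1 : -a < b) (h2 : b < a) :
    Tendsto (fun n : ℕ => Real.log (Mn a b n) / n) atTop (𝓝 (Real.log a)) := by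
  have ha' : (1 : ℝ) < a := by exact_mod_cast ha
  have t1 : Tendsto (fun k : ℕ => Real.log a + (-Real.log (2 * a ^ 2)) / k) atTop (𝓝 (Real.log a)) := by
    simpa using (tendsto_const_div_atTop_nhds_zero_nat (-Real.log (2 * (a : ℝ) ^ 2))).const_add (Real.log a)
  have t2 : Tendsto (fun k : ℕ => Real.log a + (Real.log 2) / k) atTop (𝓝 (Real.log a)) := by
    simpa using (tendsto_const_div_atTop_nhds_zero_nat (Real.log 2)).const_add (Real.log a)
  refine tendsto_of_tendsto_of_tendsto_of_le_of_le' t1 t2 ?_ ?_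
  · filter_upwards [eventually_gt_atTop 0] with k hk
    have hk' : (0 : ℝ) < k := by exact_mod_cast hk
    have h6 := Real.log_le_log (by positivity) (Mn_bd ha h1 h2 hk).1
    rw [Real.log_div (by positivity) (by positivity), Real.log_pow] at h6
    rw [le_div_iff₀ hk', add_mul, div_mul_cancel₀ _ hk'.ne']
    linarith
  · filter_upwards [eventually_gt_atTop 0] with k hk
    have hk' : (0 : ℝ) < k := by exact_mod_cast hk
    have h7 : (0 : ℝ) < Mn a b k := lt_of_lt_of_le (by positivity) (Mn_bd ha h1 h2 hk).1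
    have h6 := Real.log_le_log h7 (Mn_bd ha h1 h2 hk).2
    rw [Real.log_mul (by norm_num) (by positivity), Real.log_pow] at h6
    rw [div_le_iff₀ hk', add_mul, div_mul_cancel₀ _ hk'.ne']
    linarith

/-- sums over the first members of a set -/
lemma sum_nth (P : ℕ → Prop) [DecidablePred P] (f : ℕ → ℝ) (n : ℕ) :
    ∑ j ∈ Finset.range (Nat.count P n), f (Nat.nth P j) = ∑ m ∈ (Finset.range n).filter P, f m := by
  induction n with
  | zero => simp
  | succ n ih =>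
    rw [Nat.count_succ, Finset.range_add_one, Finset.filter_insert]
    by_cases h : P n
    · rw [if_pos h, if_pos h, Finset.sum_range_succ, ih, Nat.nth_count h, Finset.sum_insert (by simp)]
      ring
    · rw [if_neg h, if_neg h, add_zero, ih]

end Pool.Agent.N233.LP
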