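import Mathlib
import Pool.Agent.R528.RM.BHOut
import Pool.Agent.H305R2.MertensE
import Pool.Agent.Erdos456.Mertens
import Pool.Agent.N233.LP.Num

set_option autoImplicit false
set_option linter.unusedSectionVars false

/-!
# Chosen `(a ^ p - b ^ p) / (a - b)` in models with a growing sieve (helper233)
-/

open MeasureTheory Filter Set
open scoped Topology

namespace Pool.Agent.N233.LP

open Pool.Agent.R528.RM

/-- `n` has no prime factor at most `z n` -/
def Rough (z : ℕ → ℕ) (n : ℕ) : Prop := ∀ q, q.Prime → q ≤ z n → ¬ q ∣ n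

/-- `∏_{q ≤ z n} (1 - 1 / q)⁻¹` -/
noncomputable def V (z : ℕ → ℕ) (n : ℕ) : ℝ := ∏ q ∈ (Finset.Icc 1 (z n)).filter Nat.Prime, (1 - (q : ℝ)⁻¹)⁻¹

lemma V_pos (z : ℕ → ℕ) (n : ℕ) : 0 < V z n := by
  unfold V
  refine Finset.prod_pos fun q hq => ?_
  have hq2 : (1 : ℝ) < q := by exact_mod_cast (Finset.mem_filter.1 hq).2.one_lt
  have : (q : ℝ)⁻¹ < 1 := inv_lt_one_of_one_lt₀ hq2
  have h4 : 0 < 1 - (q : ℝ)⁻¹ := by linarith
  positivity

lemma logN : Tendsto (fun n : ℕ => Real.log (n : ℝ)) atTop atTop :=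
  Real.tendsto_log_atTop.comp tendsto_natCast_atTop_atTop

lemma loglogN : Tendsto (fun n : ℕ => Real.log (Real.log (n : ℝ))) atTop atTop :=
  Real.tendsto_log_atTop.comp logN

section z
variable {z : ℕ → ℕ} (hz : Tendsto (fun n : ℕ => Real.log (z n) / Real.log (Real.log n)) atTop (𝓝 1))
include hz

lemma logz_top : Tendsto (fun n : ℕ => Real.log (z n)) atTop atTop := by
  have h := hz.pos_mul_atTop one_pos loglogN
  refine h.congr' ?_
  filter_upwards [loglogN.eventually_gt_atTop 0] with n hn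
  field_simp

lemma z_top : Tendsto z atTop atTop := by
  have h := Real.tendsto_exp_atTop.comp (logz_top hz)
  rw [← tendsto_natCast_atTop_iff (R := ℝ)]
  refine h.congr' ?_
  filter_upwards [(logz_top hz).eventually_gt_atTop 0] with n hn
  simp only [Function.comp_apply]
  apply Real.exp_log
  by_contra hc
  push Not at hc
  have : (z n : ℝ) = 0 := le_antisymm hc (Nat.cast_nonneg _)
  rw [this, Real.log_zero] at hn
  exact lt_irrefl _ hn

/-- `V n ~ e ^ γ log log n` -/
lemma V_asymp : Tendsto (fun n : ℕ => V z n / Real.log (Real.log n)) atTop (𝓝 (Real.exp Real.eulerMascheroniConstant)) := by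
  have h1 := (Pool.Agent.H305R2.mertens_three).comp (z_top hz)
  have h2 := h1.mul hz
  rw [mul_one] at h2
  refine h2.congr' ?_
  filter_upwards [(logz_top hz).eventually_gt_atTop 0, loglogN.eventually_gt_atTop 0] with n g1 g2
  simp only [Function.comp_apply, V]
  field_simp

lemma V_small : Tendsto (fun n : ℕ => V z n / Real.log n) atTop (𝓝 0) := by
  have h1 : Tendsto (fun n : ℕ => Real.log (Real.log n) / Real.log n) atTop (𝓝 0) := by
    have h2 : Tendsto (fun x : ℝ => Real.log x / x) atTop (𝓝 0) := by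
      have := Real.isLittleO_log_id_atTop.tendsto_div_nhds_zero
      simpa using this
    exact h2.comp logN
  have h3 := (V_asymp hz).mul h1
  rw [mul_zero] at h3
  refine h3.congr' ?_
  filter_upwards [loglogN.eventually_gt_atTop 0] with n g2
  field_simp

end z

open Classical in
/-- the density profile -/
noncomputable def rho (z : ℕ → ℕ) (n : ℕ) : ℝ := if Rough z n then min 1 (V z n / Real.log n) else 0

lemma rho_nonneg (z : ℕ → ℕ) (n : ℕ) : 0 ≤ rho z n := by
  unfold rho
  have := V_pos z n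
  have := Real.log_natCast_nonneg n
  split_ifs
  · positivity
  · exact le_rfl

lemma rho_le (z : ℕ → ℕ) (n : ℕ) : rho z n ≤ 1 := by
  unfold rho
  split_ifs
  · exact min_le_left _ _
  · exact zero_le_one

variable {Ω : Type} {m0 : MeasurableSpace Ω} {μ : Measure Ω} [IsProbabilityMeasure μ]
  {ℱ : Filtration ℕ m0} {A : ℕ → Set Ω}

/-- the densities follow the profile -/
lemma profile (z : ℕ → ℕ) (hz : Tendsto (fun n : ℕ => Real.log (z n) / Real.log (Real.log n)) atTop (𝓝 1))
    (hcop : ∀ n, ¬ Rough z n → A n = ∅)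
    (hd : ∀ᵐ ω ∂μ, Tendsto (fun n : ℕ => dens μ ℱ A n ω * Real.log n / V z (n + 1))
      (atTop ⊓ 𝓟 {n : ℕ | Rough z (n + 1)}) (𝓝 1)) :
    ∀ᵐ ω ∂μ, ∀ ε : ℝ, 0 < ε → ∀ᶠ n : ℕ in atTop,
      |dens μ ℱ A n ω - rho z (n + 1)| ≤ ε * rho z (n + 1) := by
  have hz' : ∀ᵐ ω ∂μ, ∀ n, ¬ Rough z (n + 1) → dens μ ℱ A n ω = 0 := by
    rw [ae_all_iff]
    intro n
    by_cases h : Rough z (n + 1)
    · exact Eventually.of_forall fun ω h2 => absurd h h2
    · have h1 : dens μ ℱ A n =ᵐ[μ] 0 := by
        unfold dens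
        rw [hcop _ h, indicator_empty]
        rw [show (fun _ : Ω => (0 : ℝ)) = 0 from rfl, condExp_zero]
      filter_upwards [h1] with ω hω _
      exact hω
  filter_upwards [hz', hd] with ω hω1 hω2 ε hε
  have h1 : Tendsto (fun n : ℕ => dens μ ℱ A n ω * Real.log ((n + 1 : ℕ) : ℝ) / V z (n + 1))
      (atTop ⊓ 𝓟 {n : ℕ | Rough z (n + 1)}) (𝓝 1) := by
    have h2 := hω2.mul (log_succ_ratio.mono_left (inf_le_left : atTop ⊓ 𝓟 {n : ℕ | Rough z (n + 1)} ≤ atTop))
    rw [mul_one] at h2
    refine h2.congr' ?_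
    apply Filter.Eventually.filter_mono inf_le_left
    filter_upwards [eventually_gt_atTop 1] with n hn
    have hn' : (1 : ℝ) < n := by exact_mod_cast hn
    have hl : 0 < Real.log (n : ℝ) := Real.log_pos hn'
    field_simp
  have h2 := (Metric.tendsto_nhds.1 h1) ε hε
  rw [eventually_inf_principal] at h2
  have h3 : ∀ᶠ n : ℕ in atTop, V z (n + 1) / Real.log ((n + 1 : ℕ) : ℝ) < 1 :=
    (tendsto_add_atTop_nat 1).eventually ((V_small hz).eventually (gt_mem_nhds one_pos))
  filter_upwards [h2, h3, eventually_gt_atTop 2] with n hn hn2 hn3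
  by_cases hcp : Rough z (n + 1)
  · have h4 := hn hcp
    have hl : 0 < Real.log ((n + 1 : ℕ) : ℝ) := Real.log_pos (by push_cast; have : (2 : ℝ) < n := by exact_mod_cast hn3
                                                                 linarith)
    have hV := V_pos z (n + 1)
    have e1 : rho z (n + 1) = V z (n + 1) / Real.log ((n + 1 : ℕ) : ℝ) := by
      unfold rho
      rw [if_pos hcp, min_eq_right hn2.le]
    rw [e1]
    rw [Real.dist_eq] at h4
    have e2 : dens μ ℱ A n ω - V z (n + 1) / Real.log ((n + 1 : ℕ) : ℝ) =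
        (dens μ ℱ A n ω * Real.log ((n + 1 : ℕ) : ℝ) / V z (n + 1) - 1) * (V z (n + 1) / Real.log ((n + 1 : ℕ) : ℝ)) := by
      field_simp
    have h5 : 0 < V z (n + 1) / Real.log ((n + 1 : ℕ) : ℝ) := by positivity
    rw [e2, abs_mul, abs_of_pos h5]
    exact mul_le_mul_of_nonneg_right h4.le h5.le
  · rw [hω1 n hcp]
    have e1 : rho z (n + 1) = 0 := by
      unfold rho
      rw [if_neg hcp]
    rw [e1]
    simp

section pair
variable {a b : ℤ} (ha : 1 < a) (h1 : -a < b) (h2 : b < a)
include ha h1 h2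

lemma Mn_top : Tendsto (fun n => Mn a b n) atTop atTop := by
  have h : Tendsto (fun n => Mn a b (n + 2)) atTop atTop :=
    (strictMono_nat_of_lt_succ (f := fun n => Mn a b (n + 2)) fun n => Mn_lt ha h1 h2 (by omega)).tendsto_atTop
  exact (tendsto_add_atTop_iff_nat 2).1 h

/-- `log log M_n ~ log n` -/
lemma loglog_Mn : Tendsto (fun n : ℕ => Real.log (Real.log (Mn a b n)) / Real.log n) atTop (𝓝 1) := by
  have ha' : (1 : ℝ) < a := by exact_mod_cast ha
  have hla : 0 < Real.log a := Real.log_pos ha'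
  have h3 := Mn_growth ha h1 h2
  have h4 : Tendsto (fun n : ℕ => Real.log (Real.log (Mn a b n) / n)) atTop (𝓝 (Real.log (Real.log a))) :=
    (Real.continuousAt_log hla.ne').tendsto.comp h3
  have h5 : Tendsto (fun n : ℕ => Real.log (Real.log (Mn a b n) / n) / Real.log n) atTop (𝓝 0) := h4.div_atTop logN
  have h6 := h5.const_add 1
  rw [add_zero] at h6
  refine h6.congr' ?_
  filter_upwards [logN.eventually_gt_atTop 0, eventually_gt_atTop 0, h3.eventually (lt_mem_nhds hla)] with n g1 g2 g3
  have hn : (0 : ℝ) < n := by exact_mod_cast g2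
  have hM : 0 < Real.log (Mn a b n) := by
    rcases (div_pos_iff.1 g3) with h | h
    · exact h.1
    · exact absurd h.2 (by linarith)
  rw [Real.log_div hM.ne' hn.ne']
  field_simp
  ring

/-- the expected number is `e ^ γ log p / (p log a)` -/
lemma rho_asymp (hab : IsCoprime a b) (z : ℕ → ℕ)
    (hz : Tendsto (fun n : ℕ => Real.log (z n) / Real.log (Real.log n)) atTop (𝓝 1))
    (hz2 : Tendsto (fun n : ℕ => (z n : ℝ) / Real.log n) atTop (𝓝 0)) :
    ∀ ε : ℝ, 0 < ε → ∀ᶠ p : ℕ in atTop, p.Prime →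
      |rho z (Mn a b p) - Real.exp Real.eulerMascheroniConstant / Real.log a * (Real.log p / p)| ≤
        ε * (Real.exp Real.eulerMascheroniConstant / Real.log a * (Real.log p / p)) := by
  intro ε hε
  have ha' : (1 : ℝ) < a := by exact_mod_cast ha
  have hla : 0 < Real.log a := Real.log_pos ha'
  set κ : ℝ := Real.exp Real.eulerMascheroniConstant / Real.log a with hκ
  have hκ0 : 0 < κ := div_pos (Real.exp_pos _) hla
  have hg := Mn_growth ha h1 h2
  have ht := Mn_top ha h1 h2
  -- the sieve does not reach `p`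
  have k1 : Tendsto (fun n : ℕ => (z (Mn a b n) : ℝ) / n) atTop (𝓝 0) := by
    have h3 := (hz2.comp ht).mul hg
    rw [zero_mul] at h3
    refine h3.congr' ?_
    filter_upwards [(logN.comp ht).eventually_gt_atTop 0] with n g1
    simp only [Function.comp_apply] at g1 ⊢
    field_simp
  -- the size of the profile
  have k2 : Tendsto (fun n : ℕ => V z (Mn a b n) / Real.log (Mn a b n) / (κ * (Real.log n / n))) atTop (𝓝 1) := by
    have h3 := (V_asymp hz).comp ht
    have h4 := (h3.mul (loglog_Mn ha h1 h2)).mul (hg.inv₀ hla.ne')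
    have h5 := h4.mul_const κ⁻¹
    have e : Real.exp Real.eulerMascheroniConstant * 1 * (Real.log a)⁻¹ * κ⁻¹ = 1 := by
      rw [hκ]
      have := Real.exp_pos Real.eulerMascheroniConstant
      field_simp
    rw [e] at h5
    refine h5.congr' ?_
    filter_upwards [(loglogN.comp ht).eventually_gt_atTop 0, (logN.comp ht).eventually_gt_atTop 0,
      logN.eventually_gt_atTop 0, eventually_gt_atTop 0] with n g1 g2 g3 g4
    simp only [Function.comp_apply] at g1 g2 ⊢
    have hn : (0 : ℝ) < n := by exact_mod_cast g4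
    field_simp
  have k3 : ∀ᶠ n : ℕ in atTop, V z (Mn a b n) / Real.log (Mn a b n) < 1 :=
    ht.eventually ((V_small hz).eventually (gt_mem_nhds one_pos))
  filter_upwards [k1.eventually (gt_mem_nhds one_pos), (Metric.tendsto_nhds.1 k2) ε hε, k3,
    logN.eventually_gt_atTop 0, eventually_gt_atTop 0] with p g1 g2 g3 g4 g5 hp
  have hp0 : (0 : ℝ) < p := by exact_mod_cast g5
  have hrough : Rough z (Mn a b p) := by
    intro q hq hqz
    apply Mn_rough ha h1 h2 hab hp hq
    rw [div_lt_one hp0] at g1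
    have : z (Mn a b p) < p := by exact_mod_cast g1
    omega
  have e1 : rho z (Mn a b p) = V z (Mn a b p) / Real.log (Mn a b p) := by
    unfold rho
    rw [if_pos hrough, min_eq_right g3.le]
  rw [e1]
  rw [Real.dist_eq] at g2
  have h5 : 0 < κ * (Real.log p / p) := by positivity
  have e2 : V z (Mn a b p) / Real.log (Mn a b p) - κ * (Real.log p / p) =
      (V z (Mn a b p) / Real.log (Mn a b p) / (κ * (Real.log p / p)) - 1) * (κ * (Real.log p / p)) := by
    rw [sub_mul, one_mul, div_mul_cancel₀ _ h5.ne']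
  rw [e2, abs_mul, abs_of_pos h5]
  exact mul_le_mul_of_nonneg_right g2.le h5.le

end pair

/-- Mertens -/
lemma mertens : Tendsto (fun y : ℕ => (∑ p ∈ (Finset.range (y + 1)).filter Nat.Prime, Real.log p / p) / Real.log y)
    atTop (𝓝 1) := by
  obtain ⟨C, hC⟩ := Pool.Agent.Erdos456.Mert.mertens_log
  have e : ∀ y : ℕ, (Finset.range (y + 1)).filter Nat.Prime = (Finset.Icc 1 y).filter Nat.Prime := by
    intro y
    ext p
    simp only [Finset.mem_filter, Finset.mem_range, Finset.mem_Icc]
    constructor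
    · rintro ⟨h1, h2⟩
      exact ⟨⟨h2.one_le, by omega⟩, h2⟩
    · rintro ⟨⟨_, h1⟩, h2⟩
      exact ⟨by omega, h2⟩
  simp_rw [e]
  have h1 : Tendsto (fun y : ℕ => (∑ p ∈ (Finset.Icc 1 y).filter Nat.Prime, Real.log p / p - Real.log y) / Real.log y)
      atTop (𝓝 0) := by
    have h2 : Tendsto (fun y : ℕ => C / Real.log y) atTop (𝓝 0) := tendsto_const_nhds.div_atTop logN
    refine squeeze_zero_norm' ?_ h2
    filter_upwards [logN.eventually_gt_atTop 0, eventually_ge_atTop 1] with y g1 g2
    rw [Real.norm_eq_abs, abs_div, abs_of_pos g1]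
    exact div_le_div_of_nonneg_right (hC y g2) g1.le
  have h3 := h1.add_const 1
  rw [zero_add] at h3
  refine h3.congr' ?_
  filter_upwards [logN.eventually_gt_atTop 0] with y g1
  field_simp
  ring

/-- **one pair** -/
theorem pair_law (hA : ∀ n, MeasurableSet[ℱ n] (A n)) (z : ℕ → ℕ)
    (hz : Tendsto (fun n : ℕ => Real.log (z n) / Real.log (Real.log n)) atTop (𝓝 1))
    (hz2 : Tendsto (fun n : ℕ => (z n : ℝ) / Real.log n) atTop (𝓝 0))
    (hd : ∀ᵐ ω ∂μ, ∀ ε : ℝ, 0 < ε → ∀ᶠ n : ℕ in atTop,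
      |dens μ ℱ A n ω - rho z (n + 1)| ≤ ε * rho z (n + 1))
    (a b : ℤ) (ha : 1 < a) (h1 : -a < b) (h2 : b < a) (hab : IsCoprime a b) :
    ∀ᵐ ω ∂μ, Tendsto (fun y : ℕ => ({p : ℕ | p ≤ y ∧ p.Prime ∧ ω ∈ A (Mn a b p)}.ncard : ℝ) /
      (Real.log y / Real.log a)) atTop (𝓝 (Real.exp Real.eulerMascheroniConstant)) := by
  classical
  have ha' : (1 : ℝ) < a := by exact_mod_cast ha
  have hla : 0 < Real.log a := Real.log_pos ha'
  set κ : ℝ := Real.exp Real.eulerMascheroniConstant / Real.log a with hκ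
  have hκ0 : 0 < κ := div_pos (Real.exp_pos _) hla
  have hinf := Nat.infinite_setOfPred_prime
  have hnth : Tendsto (fun j => Nat.nth Nat.Prime j) atTop atTop := (Nat.nth_strictMono hinf).tendsto_atTop
  set u : ℕ → ℝ := fun j => κ * (Real.log (Nat.nth Nat.Prime j) / Nat.nth Nat.Prime j) with hu
  have hu0 : ∀ j, 0 ≤ u j := by
    intro j
    have := Real.log_natCast_nonneg (Nat.nth Nat.Prime j)
    simp only [hu]
    positivity
  -- sums of `u`
  have hsum : ∀ y : ℕ, ∑ j ∈ Finset.range (Nat.count Nat.Prime (y + 1)), u j =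
      κ * ∑ p ∈ (Finset.range (y + 1)).filter Nat.Prime, Real.log p / p := by
    intro y
    rw [sum_nth Nat.Prime (fun p => κ * (Real.log p / p)) (y + 1), Finset.mul_sum]
  have hM := mertens
  have hcount : Tendsto (fun y => Nat.count Nat.Prime (y + 1)) atTop atTop := by
    have h3 : Tendsto (fun y => Nat.count Nat.Prime y) atTop atTop := by
      rw [tendsto_atTop]
      intro B
      filter_upwards [eventually_ge_atTop (Nat.nth Nat.Prime B)] with y hy
      calc B = Nat.count Nat.Prime (Nat.nth Nat.Prime B) := (Nat.count_nth_of_infinite hinf B).symm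
        _ ≤ Nat.count Nat.Prime y := Nat.count_monotone _ hy
    exact h3.comp (tendsto_add_atTop_nat 1)
  have hUy : Tendsto (fun y : ℕ => ∑ j ∈ Finset.range (Nat.count Nat.Prime (y + 1)), u j) atTop atTop := by
    simp_rw [hsum]
    have h3 := (hM.pos_mul_atTop one_pos logN).const_mul_atTop hκ0
    refine h3.congr' ?_
    filter_upwards [logN.eventually_gt_atTop 0] with y g1
    field_simp
  have hU : Tendsto (fun k => ∑ j ∈ Finset.range k, u j) atTop atTop := by
    rw [tendsto_atTop]
    intro B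
    obtain ⟨y, hy⟩ := (hUy.eventually_ge_atTop B).exists
    filter_upwards [eventually_ge_atTop (Nat.count Nat.Prime (y + 1))] with k hk
    exact hy.trans (Finset.sum_le_sum_of_subset_of_nonneg (Finset.range_mono hk) fun i _ _ => hu0 i)
  -- the profile
  set F : ℕ → ℕ := fun j => Mn a b (Nat.nth Nat.Prime j) with hF
  have hrho : ∀ ε : ℝ, 0 < ε → ∀ᶠ j : ℕ in atTop, |rho z (F j) - u j| ≤ ε * u j := by
    intro ε hε
    filter_upwards [hnth.eventually (rho_asymp ha h1 h2 hab z hz hz2 ε hε)] with j hj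
    exact hj (Nat.prime_nth_prime j)
  have hself : Tendsto (fun k => (∑ j ∈ Finset.range k, u j) / ∑ j ∈ Finset.range k, u j) atTop (𝓝 1) := by
    refine tendsto_const_nhds.congr' ?_
    filter_upwards [hU.eventually_gt_atTop 0] with k hk
    rw [div_self hk.ne']
  have hratio := sum_ratio hu0 hU hrho hself
  have hdiv : Tendsto (fun k => ∑ j ∈ Finset.range k, rho z (F j)) atTop atTop := by
    have h3 := hratio.pos_mul_atTop one_pos hU
    refine h3.congr' ?_
    filter_upwards [hU.eventually_gt_atTop 0] with k hk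
    rw [div_mul_cancel₀ _ hk.ne']
  have hmono : ∀ᶠ j in atTop, F j < F (j + 1) := by
    filter_upwards with j
    exact Mn_lt' ha h1 h2 (Nat.prime_nth_prime j).two_le ((Nat.nth_strictMono hinf) (Nat.lt_succ_self j))
  have h3 := general_final (μ := μ) (ι := Unit) hA (rho z) (fun n => ⟨rho_nonneg z n, rho_le z n⟩) hd
    {()} (fun _ => F) (fun _ _ => hmono) (fun i _ j _ hij => absurd rfl hij) (by simpa using hdiv)
  filter_upwards [h3] with ω hω
  simp only [Finset.mem_singleton, Finset.prod_singleton, forall_const] at hω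
  have h4 := (hω.mul hratio).comp hcount
  have h5 := h4.mul (hM.mul_const (κ * Real.log a))
  have e1 : (1 : ℝ) * 1 * (1 * (κ * Real.log a)) = Real.exp Real.eulerMascheroniConstant := by
    rw [hκ]
    field_simp
  rw [e1] at h5
  refine h5.congr' ?_
  have hN : ∀ y : ℕ, {j : ℕ | j < Nat.count Nat.Prime (y + 1) ∧ ω ∈ A (F j)}.ncard =
      {p : ℕ | p ≤ y ∧ p.Prime ∧ ω ∈ A (Mn a b p)}.ncard := by
    intro y
    have hinj : Function.Injective (Nat.nth Nat.Prime) := (Nat.nth_strictMono hinf).injective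
    rw [← Set.ncard_image_of_injective _ hinj]
    congr 1
    ext p
    constructor
    · rintro ⟨j, ⟨hj, hj2⟩, rfl⟩
      have h6 : Nat.nth Nat.Prime j < y + 1 := by
        by_contra hc
        push Not at hc
        have h7 := Nat.count_monotone Nat.Prime hc
        rw [Nat.count_nth_of_infinite hinf] at h7
        omega
      exact ⟨by omega, Nat.prime_nth_prime j, hj2⟩
    · rintro ⟨hp1, hp2, hp3⟩
      refine ⟨Nat.count Nat.Prime p, ⟨?_, ?_⟩, Nat.nth_count hp2⟩
      · exact Nat.count_strict_mono hp2 (by omega)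
      · simp only [hF]
        rw [Nat.nth_count hp2]
        exact hp3
  filter_upwards [logN.eventually_gt_atTop 0, hUy.eventually_gt_atTop 0, (hdiv.comp hcount).eventually_gt_atTop 0]
    with y g1 g2 g3
  simp only [Function.comp_apply] at g3 ⊢
  rw [hN y]
  rw [hsum y] at g2
  have g4 : 0 < ∑ p ∈ (Finset.range (y + 1)).filter Nat.Prime, Real.log p / (p : ℝ) := by
    by_contra hc
    push Not at hc
    nlinarith
  rw [hsum y]
  field_simp

end Pool.Agent.N233.LP
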